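import Mathlib
import Pool.Agent.R616.Homog

/-!
# Homogeneous elementary free groups which are not the strong elementary Fraisse limit

Q1 of MP_87350b_lc: assuming that the class `K` of all finitely generated elementary free groups is
a strong `e`-Fraisse class, is there a countable homogeneous elementary free group `G` with
elementary age `K` which is not isomorphic to the limit of `K`?  The answer is yes.

For an element `x` of an elementary free group let `R(x)` be the set of all `q` such that `x` has a
`q`-th root.  In the ultrapower of a nonabelian free group every set of primes is of the form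
`R(x) ∩ primes`.  Only countably many sets of primes are realised in members of `K`.  Take an
element `x` of the ultrapower realising a new one, and a countable elementary substructure `G` of
the ultrapower which contains `x` and copies of all members of `K` and is closed under the forth
property.  Then `G` is homogeneous with elementary age `K`, but it is not the union of an
elementary chain of members of `K`.
-/

namespace Pool.Agent.Results.MP_87350b_lc.OtherHomogeneous

open FirstOrder Language Structure CategoryTheory Pool.Agent.R616.Homog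

/-! ### Definitions -/

/-- The function symbols of the language of groups. -/
inductive GroupFunc : ℕ → Type
  | mul : GroupFunc 2
  | inv : GroupFunc 1
  | one : GroupFunc 0

/-- The first-order language `{·, ⁻¹, 1}` of groups. -/
def groupLang : FirstOrder.Language.{0, 0} := ⟨GroupFunc, fun _ => Empty⟩

/-- A group as a structure in the language of groups. -/
@[reducible]
def groupStructure (G : Type) [Group G] : groupLang.Structure G where
  funMap {n} f x :=
    match n, f with
    | 2, GroupFunc.mul => x 0 * x 1
    | 1, GroupFunc.inv => (x 0)⁻¹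
    | 0, GroupFunc.one => 1
  RelMap r _ := Empty.elim r

/-- The free group on the set `S` as a structure in the language of groups. -/
instance freeStructure (S : Type) : groupLang.Structure (FreeGroup S) :=
  groupStructure (FreeGroup S)

/-- The elementary free groups: the structures in the language of groups which are elementarily
equivalent to the free group on `S`.  (They satisfy the axioms of groups.  All nonabelian free
groups are elementarily equivalent, so this does not depend on the choice of the set `S` with at
least two elements; the main theorem is stated and proved for every such `S`.) -/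
def IsElementaryFree (S : Type) (G : Type) [groupLang.Structure G] : Prop :=
  groupLang.ElementarilyEquivalent G (FreeGroup S)

/-- The class `K` of all finitely generated elementary free groups. -/
def K (S : Type) : Set (Bundled.{0} groupLang.Structure) :=
  {A | Structure.FG groupLang A ∧ IsElementaryFree S A}

section Fraisse

variable (L : FirstOrder.Language.{0, 0})

/-- The elementary age of `M`: the finitely generated structures isomorphic to an elementary
substructure of `M`. -/
def eAge (M : Type) [L.Structure M] : Set (Bundled.{0} L.Structure) :=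
  {A | Structure.FG L A ∧ Nonempty (A ↪ₑ[L] M)}

/-- `M` is the union of an elementary chain of members of the class `C`: there is a family,
indexed by a linear order and increasing, of elementary substructures of `M` which are in `C` and
cover `M`. -/
def IsUnionOfElementaryChain (C : Set (Bundled.{0} L.Structure)) (M : Type) [L.Structure M] :
    Prop :=
  ∃ (I : Type) (_ : LinearOrder I) (A : I → L.ElementarySubstructure M),
    (∀ i k, i ≤ k → (A i : Set M) ⊆ (A k : Set M)) ∧ (∀ i, (⟨A i, inferInstance⟩ : Bundled.{0} L.Structure) ∈ C) ∧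
      ∀ x : M, ∃ i, x ∈ A i

/-- Strong `e`-Fraisse classes: nonempty classes of finitely generated structures with countably
many isomorphism types, closed under isomorphism and finitely generated elementary substructures,
with joint elementary embeddings and with the strong elementary amalgamation property. -/
structure IsStrongEFraisseClass (C : Set (Bundled.{0} L.Structure)) : Prop where
  nonempty : C.Nonempty
  fg : ∀ A ∈ C, Structure.FG L A
  countable : ∃ f : ℕ → Bundled.{0} L.Structure, (∀ i, f i ∈ C) ∧
    ∀ A ∈ C, ∃ i, Nonempty (A ≃[L] f i)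
  iso : ∀ A ∈ C, ∀ B : Bundled.{0} L.Structure, Nonempty (A ≃[L] B) → B ∈ C
  hereditary : ∀ A ∈ C, ∀ B : Bundled.{0} L.Structure, Structure.FG L B →
    Nonempty (B ↪ₑ[L] A) → B ∈ C
  joint : ∀ A ∈ C, ∀ B ∈ C, ∃ D ∈ C, Nonempty (A ↪ₑ[L] D) ∧ Nonempty (B ↪ₑ[L] D)
  amalgamation : ∀ A₀ ∈ C, ∀ A₁ ∈ C, ∀ A₂ ∈ C, ∀ (n : ℕ) (a : Fin n → A₀) (b₁ : Fin n → A₁)
    (b₂ : Fin n → A₂), SameType L a b₁ → SameType L a b₂ →
      ∃ D ∈ C, ∃ (g₁ : A₁ ↪ₑ[L] D) (g₂ : A₂ ↪ₑ[L] D), ∀ i, g₁ (b₁ i) = g₂ (b₂ i)

/-- `M` is a strong `e`-Fraisse limit of `C`: it is countable, its elementary age is `C`, it is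
homogeneous, and it is the union of an elementary chain of members of `C`. -/
structure IsStrongEFraisseLimit (C : Set (Bundled.{0} L.Structure)) (M : Type) [L.Structure M] :
    Prop where
  countable : Countable M
  eAge_eq : eAge L M = C
  homogeneous : IsHomogeneous L M
  chain : IsUnionOfElementaryChain L C M

end Fraisse

/-! ### Roots -/

/-- The symbol for the neutral element. -/
abbrev oneSymb : groupLang.Functions 0 := GroupFunc.one

/-- The symbol for the multiplication. -/
abbrev mulSymb : groupLang.Functions 2 := GroupFunc.mul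

/-- The term `t ^ n`. -/
def powTerm {α : Type} (t : groupLang.Term α) : ℕ → groupLang.Term α
  | 0 => Term.func oneSymb ![]
  | n + 1 => Term.func mulSymb ![powTerm t n, t]

lemma realize_powTerm {α S : Type} (t : groupLang.Term α) (v : α → FreeGroup S) (n : ℕ) :
    (powTerm t n).realize v = (t.realize v) ^ n := by
  induction n with
  | zero =>
    rw [pow_zero]
    rfl
  | succ n ih =>
    rw [pow_succ, ← ih]
    rfl

/-- The formula saying that the variable has a `q`-th root. -/
def rootFormula (q : ℕ) : groupLang.Formula (Fin 1) :=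
  BoundedFormula.ex (Term.bdEqual (n := 1)
    (powTerm (Term.var (Sum.inr 0)) q) (Term.var (Sum.inl 0)))

/-- The set of all `q` such that `x` has a `q`-th root. -/
def roots {M : Type} [groupLang.Structure M] (x : M) : Set ℕ :=
  {q | (rootFormula q).Realize (fun _ : Fin 1 => x)}

lemma roots_map {M N : Type} [groupLang.Structure M] [groupLang.Structure N]
    (j : M ↪ₑ[groupLang] N) (x : M) : roots (j x) = roots x := by
  ext q
  exact j.map_formula (rootFormula q) (fun _ => x)

lemma realize_root {S : Type} (q : ℕ) (x : FreeGroup S) :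
    (rootFormula q).Realize (fun _ : Fin 1 => x) ↔ ∃ y : FreeGroup S, y ^ q = x := by
  unfold rootFormula
  rw [Formula.Realize, BoundedFormula.realize_ex]
  refine exists_congr fun y => ?_
  rw [BoundedFormula.realize_bdEqual, realize_powTerm]
  rfl

/-- For a generator `a`, the power `a ^ N` has a `q`-th root iff `q` divides `N`. -/
lemma root_pow {S : Type} (s : S) (q N : ℕ) :
    (∃ y : FreeGroup S, y ^ q = (FreeGroup.of s) ^ N) ↔ q ∣ N := by
  constructor
  · rintro ⟨y, hy⟩
    let φ : FreeGroup S →* Multiplicative ℤ := FreeGroup.lift fun _ => Multiplicative.ofAdd 1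
    have h1 := congrArg φ hy
    rw [map_pow, map_pow, FreeGroup.lift_apply_of] at h1
    have h2 := congrArg Multiplicative.toAdd h1
    rw [toAdd_pow, toAdd_pow, toAdd_ofAdd] at h2
    have h3 : (q : ℤ) ∣ (N : ℤ) := ⟨Multiplicative.toAdd (φ y), by
      simpa using h2.symm⟩
    exact_mod_cast h3
  · rintro ⟨m, rfl⟩
    exact ⟨(FreeGroup.of s) ^ m, by rw [← pow_mul, mul_comm]⟩

/-- In the ultrapower of a free group every set of primes is realised. -/
lemma exists_roots {S : Type} (s : S) (P : Set ℕ) :
    ∃ x : U (FreeGroup S), ∀ q, q.Prime → (q ∈ roots x ↔ q ∈ P) := by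
  classical
  let N : ℕ → ℕ := fun i => ∏ q ∈ (Finset.range (i + 1)).filter (fun q => q.Prime ∧ q ∈ P), q
  have hN : ∀ i q, q.Prime → (q ∣ N i ↔ (q ≤ i ∧ q ∈ P)) := by
    intro i q hq
    constructor
    · intro h
      obtain ⟨p, hp, hqp⟩ := (hq.prime.dvd_finsetProd_iff _).1 h
      simp only [Finset.mem_filter, Finset.mem_range] at hp
      have : q = p := (Nat.prime_dvd_prime_iff_eq hq hp.2.1).1 hqp
      subst this
      exact ⟨by omega, hp.2.2⟩
    · rintro ⟨h1, h2⟩
      refine Finset.dvd_prod_of_mem _ ?_
      simp only [Finset.mem_filter, Finset.mem_range]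
      exact ⟨by omega, hq, h2⟩
  refine ⟨cls fun i => (FreeGroup.of s) ^ N i, fun q hq => ?_⟩
  have h1 : q ∈ roots (cls fun i => (FreeGroup.of s) ^ N i) ↔
      ∀ᶠ i in ((Filter.hyperfilter ℕ : Ultrafilter ℕ) : Filter ℕ),
        (rootFormula q).Realize (fun _ : Fin 1 => (FreeGroup.of s) ^ N i) := by
    exact Ultraproduct.realize_formula_cast (u := (Filter.hyperfilter ℕ : Ultrafilter ℕ))
      (M := fun _ : ℕ => FreeGroup S) (rootFormula q)
      (fun _ : Fin 1 => fun i => (FreeGroup.of s) ^ N i)
  rw [h1]
  have h2 : (∀ᶠ i in ((Filter.hyperfilter ℕ : Ultrafilter ℕ) : Filter ℕ),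
        (rootFormula q).Realize (fun _ : Fin 1 => (FreeGroup.of s) ^ N i)) ↔
      ∀ᶠ _i in ((Filter.hyperfilter ℕ : Ultrafilter ℕ) : Filter ℕ), q ∈ P := by
    constructor
    · intro h
      refine h.mono fun i hi => ?_
      rw [realize_root, root_pow, hN i q hq] at hi
      exact hi.2
    · intro h
      refine (h.and (eventually_ge q)).mono ?_
      rintro i ⟨h3, h4⟩
      rw [realize_root, root_pow, hN i q hq]
      exact ⟨h4, h3⟩
  rw [h2, Filter.eventually_const]

instance : Countable (Σ l, groupLang.Functions l) := by
  let f : (Σ l, groupLang.Functions l) → Fin 3 := fun x =>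
    match x with
    | ⟨2, GroupFunc.mul⟩ => 0
    | ⟨1, GroupFunc.inv⟩ => 1
    | ⟨0, GroupFunc.one⟩ => 2
  refine Function.Injective.countable (f := f) ?_
  rintro ⟨_, ⟨⟩⟩ ⟨_, ⟨⟩⟩ h <;> first | rfl | exact absurd h (by decide)

instance : Countable (Σ l, groupLang.Relations l) := by
  have : IsEmpty (Σ l, groupLang.Relations l) := ⟨fun x => Empty.elim x.2⟩
  infer_instance

lemma nonempty_of_equiv {S : Type} {A : Type} [groupLang.Structure A]
    (_hA : IsElementaryFree S A) : Nonempty A :=
  ⟨funMap oneSymb ![]⟩

/-- **Positive answer to Q1 of MP_87350b_lc.**  If `K` is a strong `e`-Fraisse class, then there is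
a countable homogeneous elementary free group `G` with elementary age `K` which is not isomorphic
to the strong `e`-Fraisse limit of `K`; equivalently, it is not the union of an elementary chain of
members of `K`. -/
theorem result (S : Type) [Nontrivial S] (hK : IsStrongEFraisseClass groupLang (K S)) :
    ∃ (G : Type) (_ : groupLang.Structure G), Countable G ∧ IsElementaryFree S G ∧
      IsHomogeneous groupLang G ∧ eAge groupLang G = K S ∧
      ¬ IsUnionOfElementaryChain groupLang (K S) G ∧
      ∀ (M : Type) [groupLang.Structure M], IsStrongEFraisseLimit groupLang (K S) M →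
        IsEmpty (G ≃[groupLang] M) := by
  classical
  obtain ⟨f, hfK, hf⟩ := hK.countable
  have hcount : ∀ i, Countable (f i) := fun i => Structure.cg_iff_countable.1 (hfK i).1.cg
  have hne : ∀ i, Nonempty (f i) := fun i => nonempty_of_equiv (hfK i).2
  have hemb : ∀ i, Nonempty (f i ↪ₑ[groupLang] U (FreeGroup S)) := fun i => embed _ (hfK i).2
  let j : ∀ i, f i ↪ₑ[groupLang] U (FreeGroup S) := fun i => (hemb i).some
  -- a set of primes which is not realised in a member of `K`
  have hsig : Nonempty (Σ i, f i) := ⟨⟨0, (hne 0).some⟩⟩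
  obtain ⟨e, he⟩ := exists_surjective_nat (Σ i, f i)
  let P : Set ℕ := {q | ∃ n, q = Nat.nth Nat.Prime n ∧ q ∉ roots (e n).2}
  have hP : ∀ n, (Nat.nth Nat.Prime n ∈ P ↔ Nat.nth Nat.Prime n ∉ roots (e n).2) := by
    intro n
    constructor
    · rintro ⟨m, hm, hm'⟩
      have : n = m := Nat.nth_injective Nat.infinite_setOfPred_prime hm
      subst this
      exact hm'
    · intro h
      exact ⟨n, rfl, h⟩
  obtain ⟨s⟩ : Nonempty S := inferInstance
  obtain ⟨x, hx⟩ := exists_roots s P
  have hnew : ∀ (A : Bundled.{0} groupLang.Structure), A ∈ K S → ∀ y : A, roots y ≠ roots x := by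
    intro A hA y hxy
    obtain ⟨i, ⟨g⟩⟩ := hf A hA
    obtain ⟨n, hn⟩ := he ⟨i, g y⟩
    have h1 : roots (e n).2 = roots x := by
      rw [hn, ← hxy]
      exact roots_map g.toElementaryEmbedding y
    have hpr : (Nat.nth Nat.Prime n).Prime := Nat.prime_nth_prime n
    have h2 := hx _ hpr
    rw [hP, h1] at h2
    by_cases h3 : Nat.nth Nat.Prime n ∈ roots x
    · exact (h2.1 h3) h3
    · exact h3 (h2.2 h3)
  -- the countable elementary substructure
  let X : Set (U (FreeGroup S)) := (⋃ i, Set.range (j i)) ∪ {x}
  have hX : X.Countable :=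
    (Set.countable_iUnion fun i => Set.countable_range _).union (Set.countable_singleton x)
  obtain ⟨G, hG, hXG, hforth⟩ := exists_closed (forth (L := groupLang) (F := FreeGroup S)) X hX
  have hxG : x ∈ G := hXG (Or.inr rfl)
  -- the union of an elementary chain of members of `K` does not contain a copy of `x`
  have hchain : ∀ (M : Type) [groupLang.Structure M],
      IsUnionOfElementaryChain groupLang (K S) M → ∀ y : M, roots y ≠ roots x := by
    intro M _ hM y
    obtain ⟨I, _, A, -, hA, hcov⟩ := hM
    obtain ⟨i, hi⟩ := hcov y
    have h1 := hnew _ (hA i) ⟨y, hi⟩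
    have h2 : roots y = roots (⟨y, hi⟩ : A i) := roots_map (A i).subtype ⟨y, hi⟩
    rw [h2]
    exact h1
  have hxroots : roots (⟨x, hxG⟩ : G) = roots x := (roots_map G.subtype ⟨x, hxG⟩).symm
  refine ⟨G, inferInstance, hG, ?_, homogeneous_of_forth hforth, ?_, ?_, ?_⟩
  · exact G.elementarilyEquivalent.trans elementarilyEquivalent
  · ext A
    constructor
    · rintro ⟨hAfg, ⟨i⟩⟩
      exact ⟨hAfg, i.elementarilyEquivalent.trans
        (G.elementarilyEquivalent.trans elementarilyEquivalent)⟩
    · intro hA
      refine ⟨hA.1, ?_⟩
      obtain ⟨i, ⟨g⟩⟩ := hf A hA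
      have hmem : ∀ y : A, j i (g y) ∈ G := fun y =>
        hXG (Or.inl (Set.mem_iUnion.2 ⟨i, ⟨g y, rfl⟩⟩))
      refine ⟨{ toFun := fun y => ⟨j i (g y), hmem y⟩, map_formula' := ?_ }⟩
      intro n φ y
      have h1 := G.subtype.map_formula φ (fun t => (⟨j i (g (y t)), hmem (y t)⟩ : G))
      have h2 := ((j i).comp g.toElementaryEmbedding).map_formula φ y
      exact h1.symm.trans h2
  · intro hcon
    exact hchain G hcon ⟨x, hxG⟩ hxroots
  · intro M _ hM
    refine ⟨fun g => ?_⟩
    refine hchain M hM.chain (g ⟨x, hxG⟩) ?_
    rw [← hxroots]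
    exact roots_map g.toElementaryEmbedding ⟨x, hxG⟩

end Pool.Agent.Results.MP_87350b_lc.OtherHomogeneous
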